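import Mathlib

/-!
# QI, piece G2: a multiple over `K` of a nonzero polynomial over a finite extension
-/

set_option autoImplicit false

namespace Pool.Agent.Helper92.QI

attribute [local instance] MvPolynomial.algebraMvPolynomial in
/-- **G2.** a multiple over `K` of a nonzero polynomial over a finite extension -/
theorem exists_multiple {K M : Type} [Field K] [Field M] [Algebra K M] [FiniteDimensional K M]
    {n : ℕ} (p : MvPolynomial (Fin n) M) (hp : p ≠ 0) :
    ∃ q : MvPolynomial (Fin n) K, q ≠ 0 ∧ p ∣ MvPolynomial.map (algebraMap K M) q := by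
  have h : IsAlgebraic (MvPolynomial (Fin n) K) p := Algebra.IsAlgebraic.isAlgebraic p
  obtain ⟨q, hq, hd⟩ := h.exists_nonzero_dvd (mem_nonZeroDivisors_of_ne_zero hp)
  exact ⟨q, hq, hd⟩

end Pool.Agent.Helper92.QI
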